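import Pool.Agent.W845.PM.Base

/-!
Project PM (helper845), part FIN0: lower threshold, assembly.
-/

set_option autoImplicit false
open scoped Classical
open Filter Topology MeasureTheory ProbabilityTheory
open scoped ENNReal NNReal BigOperators

namespace Pool.Agent.W382.PM.Fin0

open Pool.Agent.W845.PM

theorem lip_comap (hL : S_LIP) {m n : ℕ} (e : Fin m ↪ Fin n) (G G' : SimpleGraph (Fin n))
    (v : Fin n) (h : del G v = del G' v) : |dfc (G.comap e) - dfc (G'.comap e)| ≤ 2 := by
  have hadj : ∀ a b : Fin n, a ≠ v → b ≠ v → (G.Adj a b ↔ G'.Adj a b) := by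
    intro a b ha hb
    have h1 : (del G v).Adj a b ↔ (del G' v).Adj a b := by rw [h]
    simp only [del] at h1
    constructor
    · intro hab
      exact (h1.1 ⟨hab, ha, hb⟩).1
    · intro hab
      exact (h1.2 ⟨hab, ha, hb⟩).1
  by_cases hv : ∃ x, e x = v
  · obtain ⟨x, hx⟩ := hv
    refine hL (Fin m) (G.comap e) (G'.comap e) x ?_
    ext a b
    simp only [del, SimpleGraph.comap_adj]
    constructor
    · rintro ⟨h1, h2, h3⟩
      refine ⟨(hadj _ _ ?_ ?_).1 h1, h2, h3⟩
      · rw [← hx]; exact fun h4 => h2 (e.injective h4)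
      · rw [← hx]; exact fun h4 => h3 (e.injective h4)
    · rintro ⟨h1, h2, h3⟩
      refine ⟨(hadj _ _ ?_ ?_).2 h1, h2, h3⟩
      · rw [← hx]; exact fun h4 => h2 (e.injective h4)
      · rw [← hx]; exact fun h4 => h3 (e.injective h4)
  · have h1 : G.comap e = G'.comap e := by
      ext a b
      simp only [SimpleGraph.comap_adj]
      exact hadj _ _ (fun h2 => hv ⟨a, h2⟩) (fun h2 => hv ⟨b, h2⟩)
    rw [h1, sub_self, abs_zero]
    norm_num

theorem fin0 : S_ONE → S_COM → S_MCD → S_LIP → S_UNIF → S_AN4 → S_DET0 → S_KBD → S_FIN0 := by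
  intro _ hCOM hMCD hLIP hUNIF hAN4 hDET hKBD α c ε δ hα hα2 hc hGam hε hε1 hδ
  set c0 : ℝ := (1 - ε) * c with hc0
  have hc0p : 0 < c0 := mul_pos (by linarith) hc
  have hc0c : c0 < c := by
    rw [hc0]
    nlinarith
  have hG0 : Gam c < Gam c0 := hAN4.1 c0 c hc0p hc0c
  have h1α : 0 < 1 - α := by linarith
  set θ : ℝ := (Gam c0 - Gam c) * (1 - α) / 2 with hθ
  have hθp : 0 < θ := by
    have := mul_pos (sub_pos.2 hG0) h1α
    rw [hθ]
    linarith
  set η : ℝ := θ / (2 * (1 - α)) with hη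
  have hηp : 0 < η := by positivity
  obtain ⟨ρ, N0, hρ, hU⟩ := hUNIF c0 η hc0p hηp
  -- the key identity
  have hkey : (Gam c0 - 1 - η) * (1 - α) = α + 3 * θ / 2 := by
    have h1 : η * (1 - α) = θ / 2 := by
      rw [hη]
      field_simp
    have h2 : Gam c * (1 - α) = 1 := by
      rw [hGam]
      field_simp
    have h3 : (Gam c0 - Gam c) * (1 - α) = 2 * θ := by
      rw [hθ]
      ring
    linarith
  have hkpos : 0 < Gam c0 - 1 - η := by
    have h1 : 0 < (Gam c0 - 1 - η) * (1 - α) := by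
      rw [hkey]
      positivity
    exact (pos_iff_pos_of_mul_pos h1).2 h1α
  -- large n
  have hev : ∀ X : ℝ, ∀ᶠ n : ℕ in atTop, X ≤ (n : ℝ) := fun X =>
    tendsto_natCast_atTop_atTop.eventually_ge_atTop X
  have hall := (hev (c0 / (1 - α) / ρ)).and ((hev (((N0 : ℝ) + 1) / (1 - α))).and
    ((hev (((α + 3 * θ / 2) / (1 - α)) / (θ / 2))).and
    ((hev ((1 - ε) * (c / (1 - α)))).and ((hev (1 / (1 - 2 * α))).and
    ((hev (2 / θ)).and ((hev (-Real.log δ * 32 / θ ^ 2)).and (hev 1)))))))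
  obtain ⟨N, hN⟩ := Filter.eventually_atTop.1 hall
  refine ⟨N, fun n hn _ => ?_⟩
  obtain ⟨e1, e2, e3, e4, e5, e6, e7, e8⟩ := hN n hn
  have hnpos : (0 : ℝ) < n := by linarith
  have hn1 : 1 ≤ n := by exact_mod_cast e8
  rw [div_le_iff₀ hρ] at e1
  rw [div_le_iff₀ h1α] at e2
  rw [div_le_iff₀ (by positivity)] at e3
  rw [div_le_iff₀ (by linarith)] at e5
  rw [div_le_iff₀ hθp] at e6
  rw [div_le_iff₀ (by positivity)] at e7
  set a : ℕ := ⌈α * n⌉₊ with ha
  have ha1 : α * n ≤ a := Nat.le_ceil _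
  have ha2 : (a : ℝ) < α * n + 1 := Nat.ceil_lt_add_one (by positivity)
  have han : a ≤ n := by
    have h10 : (n : ℝ) * (1 - 2 * α) = n - 2 * (α * n) := by ring
    have h11 : 0 ≤ α * (n : ℝ) := by positivity
    have h1 : (a : ℝ) ≤ n := by linarith
    exact_mod_cast h1
  have hsub : ((n - a : ℕ) : ℝ) = (n : ℝ) - a := by
    rw [Nat.cast_sub han]
  set m : ℕ := n - a with hm
  have hm1 : (1 - α) * n - 1 ≤ (m : ℝ) := by
    rw [hsub]
    linarith
  have hm2 : (m : ℝ) ≤ (1 - α) * n := by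
    rw [hsub]
    linarith
  have hmN : N0 ≤ m := by
    have h1 : (N0 : ℝ) ≤ m := by linarith
    exact_mod_cast h1
  set p : ℝ := (1 - ε) * (c / (1 - α)) / n with hp
  have hp0 : 0 ≤ p := by
    have : 0 ≤ 1 - ε := by linarith
    positivity
  have hp1 : p ≤ 1 := by
    rw [hp, div_le_one hnpos]
    exact e4
  have hmp : |(m : ℝ) * p - c0| ≤ ρ := by
    have h1 : (m : ℝ) * p - c0 = c0 * (((m : ℝ) - (1 - α) * n) / ((1 - α) * n)) := by
      rw [hp, hc0]
      field_simp
    rw [h1, abs_mul, abs_of_pos hc0p, abs_div, abs_of_pos (show 0 < (1 - α) * (n : ℝ) by positivity)]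
    have h2 : |(m : ℝ) - (1 - α) * n| ≤ 1 := by
      rw [abs_le]
      constructor <;> linarith
    calc c0 * (|(m : ℝ) - (1 - α) * n| / ((1 - α) * n)) ≤ c0 * (1 / ((1 - α) * n)) := by
          refine mul_le_mul_of_nonneg_left ?_ hc0p.le
          exact div_le_div_of_nonneg_right h2 (by positivity)
      _ = c0 / (1 - α) / n := by
          field_simp
      _ ≤ ρ := by
          rw [div_le_iff₀ hnpos]
          linarith
  have hEG := hU m p hmN hp0 hp1 hmp
  rw [abs_le] at hEG
  have hmpos : 0 < (m : ℝ) := by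
    have h0 : (0 : ℝ) ≤ N0 := Nat.cast_nonneg _
    by_contra hcon
    have hm0 : (m : ℝ) = 0 := le_antisymm (not_lt.1 hcon) (Nat.cast_nonneg _)
    -- then (1 - α) n ≤ 1, but e3 says that n is large
    have h1 : (1 - α) * n ≤ 1 := by linarith
    have h2 : (α + 3 * θ / 2) / (1 - α) ≤ (n : ℝ) * (θ / 2) := e3
    rw [div_le_iff₀ h1α] at h2
    have h3 : (n : ℝ) * (θ / 2) * (1 - α) = (θ / 2) * ((1 - α) * n) := by ring
    have h4 : (θ / 2) * ((1 - α) * n) ≤ (θ / 2) * 1 :=
      mul_le_mul_of_nonneg_left h1 (by positivity)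
    linarith
  have hEG2 : α * n + θ * n ≤ EG m p dfc := by
    have h1 : Gam c0 - 1 - η ≤ EG m p dfc / m := by linarith [hEG.1]
    rw [le_div_iff₀ hmpos] at h1
    have h2 : (Gam c0 - 1 - η) * ((1 - α) * n - 1) ≤ (Gam c0 - 1 - η) * m :=
      mul_le_mul_of_nonneg_left hm1 hkpos.le
    have h3 : (Gam c0 - 1 - η) * ((1 - α) * n - 1) =
        (α + 3 * θ / 2) * n - (α + 3 * θ / 2) / (1 - α) := by
      have h4 : Gam c0 - 1 - η = (α + 3 * θ / 2) / (1 - α) := by
        rw [eq_div_iff h1α.ne']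
        exact hkey
      rw [h4]
      field_simp
    have h5 : (α + 3 * θ / 2) * n = α * n + θ * n + (n : ℝ) * (θ / 2) := by ring
    linarith
  -- the embedding
  let e : Fin m ↪ Fin n := ⟨fun x => ⟨x.val + a, by have := x.isLt; omega⟩, by
    intro x y hxy
    have h1 := congrArg Fin.val hxy
    simp only at h1
    exact Fin.ext (by omega)⟩
  have he : ∀ x : Fin n, x ∈ Set.range e ↔ a ≤ x.val := by
    intro x
    constructor
    · rintro ⟨y, rfl⟩
      change a ≤ y.val + a
      omega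
    · intro hx
      refine ⟨⟨x.val - a, by have := x.isLt; omega⟩, ?_⟩
      apply Fin.ext
      change x.val - a + a = x.val
      omega
  refine ⟨KB n a, ?_, ?_⟩
  · refine hKBD n a (α * n) hn1 ha1 han ?_
    rw [← hsub]
    have h9 : (1 - α) * (n : ℝ) = n - α * n := by ring
    have h10 : (n : ℝ) * (1 - 2 * α) = n - 2 * (α * n) := by ring
    linarith
  · set F : SimpleGraph (Fin n) → ℝ := fun G => -dfc (G.comap e) with hF
    have hFE : EG n p F = -EG m p dfc := by
      have h1 : EG n p F = (-1) * EG n p (fun G => dfc (G.comap e)) := by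
        rw [← EG_mul_left]
        refine EG_congr fun G => ?_
        rw [hF]
        ring
      rw [h1, hCOM m n e p dfc]
      ring
    have hM := hMCD n p 2 (θ * n / 2) F hn1 hp0 hp1 (by norm_num) (by positivity) (by
      intro G G' v h
      have h1 := lip_comap hLIP e G G' v h
      rw [hF]
      simp only
      rw [neg_sub_neg, abs_sub_comm]
      exact h1)
    have hle : EG n p (fun R => if PMa (KB n a ⊔ R) then (1 : ℝ) else 0) ≤
        EG n p (fun G => if EG n p F + θ * n / 2 ≤ F G then (1 : ℝ) else 0) := by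
      refine EG_mono hp0 hp1 fun G => ?_
      by_cases hP : PMa (KB n a ⊔ G)
      · have h1 := hDET n a G e han he hP
        have h2 : EG n p F + θ * n / 2 ≤ F G := by
          rw [hFE, hF]
          simp only
          linarith
        rw [if_pos hP, if_pos h2]
      · rw [if_neg hP]
        split_ifs <;> norm_num
    refine hle.trans (hM.trans ?_)
    have h1 : (θ * n / 2) ^ 2 / (2 * n * 2 ^ 2) = θ ^ 2 * n / 32 := by
      field_simp
      ring
    rw [h1]
    have h2 : -(θ ^ 2 * n / 32) ≤ Real.log δ := by linarith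
    calc Real.exp (-(θ ^ 2 * n / 32)) ≤ Real.exp (Real.log δ) := Real.exp_le_exp.2 h2
      _ = δ := Real.exp_log hδ

end Pool.Agent.W382.PM.Fin0
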